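import Pool.Agent.Helper8.UB.Deg
import Pool.Graph.R_pool_sql_team_seeded_b677cdb8.Results.MP_9b502d_nt.LargeCharH88

/-!
# Bounds independent of the characteristic
-/

set_option autoImplicit false

namespace Pool.Agent.Helper8.UB

open Polynomial Pool.Agent.Z864.UB

universe u v w

/-- the definition of the library, for any field -/
def FL {K : Type*} [Field K] (d : ℕ) (p q : K[X]) : Prop :=
  ∃ (e : ℕ) (A B : K[X]), A ≠ 0 ∧ B ≠ 0 ∧ A.natDegree ≤ e ∧ B.natDegree ≤ e ∧
    (∑ i ∈ Finset.range (e + 1), C (A.coeff i) * p ^ i * q ^ (e - i)) *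
        (derivative p * q - p * derivative q) ^ 2 * B =
      C (d : K) * A * q ^ 4 * ∑ i ∈ Finset.range (e + 1), C (B.coeff i) * p ^ i * q ^ (e - i)

lemma FL_map {K L : Type*} [Field K] [Field L] (φ : K →+* L) {d : ℕ} {p q : K[X]}
    (h : FL d p q) : FL d (p.map φ) (q.map φ) := by
  obtain ⟨e, A, B, hA, hB, hAe, hBe, hid⟩ := h
  refine ⟨e, A.map φ, B.map φ, ?_, ?_, natDegree_map_le.trans hAe, natDegree_map_le.trans hBe, ?_⟩
  · exact (Polynomial.map_ne_zero_iff φ.injective).mpr hA
  · exact (Polynomial.map_ne_zero_iff φ.injective).mpr hB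
  · have h1 := congrArg (fun g : K[X] => g.map φ) hid
    simp only [Polynomial.map_mul, Polynomial.map_pow, Polynomial.map_sub, Polynomial.map_sum,
      Polynomial.map_C, ← derivative_map] at h1
    simp only [coeff_map]
    rw [map_natCast] at h1
    exact h1

/-- **the length of finite orbits**, in characteristic zero and in large characteristic, for maps
which are not flexible Lattes maps -/
theorem orb_irr_large : ∃ p₀ : ℕ → ℕ, ∀ n d : ℕ, 2 ≤ d → ∃ R : ℕ, ∀ c : ℕ, p₀ d < c →
    ∀ (k : Type v) (K : Type u) [Field k] [CharP k c] [Field K] [Algebra k K] (B : Set K),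
    AlgebraicIndependent k ((↑) : B → K) →
    FiniteDimensional (IntermediateField.adjoin k B) K →
    Module.finrank (IntermediateField.adjoin k B) K ≤ n →
    ∀ p q : K[X], IsCoprime p q → max p.natDegree q.natDegree = d → ¬ CA k p q d →
    ¬ FL d (p.map (algebraMap K (AlgebraicClosure K))) (q.map (algebraMap K (AlgebraicClosure K))) →
    ∀ z : Option K, ∀ h : (Set.range fun m : ℕ => (rt p q d)^[m] z).Finite,
      h.toFinset.card ≤ R := by
  classical
  obtain ⟨p₀, N, hN⟩ := Pool.Agent.Results.MP_9b502d_nt.LargeCharH88.result.{u, u}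
  refine ⟨p₀, ?_⟩
  intro n d hd
  refine ⟨N n 1 d + (2 * d + 1), ?_⟩
  intro c hc k K _ _ _ _ B hB hfd hn p q hco hmax hiso hfl
  refine orb_transfer hB hn hd hco hmax hiso (by omega) ?_
  intro k' b hb hfd' hn' hni z h
  have hck : CharP k' c := charP_of_injective_algebraMap (algebraMap k k').injective c
  have h1 := hN c k' K b hb hfd' n 1 d hn' le_rfl hd (Or.inr hc) p q hco hmax hni hfl
  set j := algebraMap K (AlgebraicClosure K) with hj
  have hinj : Function.Injective (Option.map j) := Option.map_injective j.injective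
  have hmap : ∀ z : Option (AlgebraicClosure K),
      Pool.Agent.Results.MP_9b502d_nt.LargeCharH88.mapP1 (p.map j) (q.map j) d z =
        rt (p.map j) (q.map j) d z := by
    intro z
    rcases z with _ | x <;> rfl
  have hmap' : Pool.Agent.Results.MP_9b502d_nt.LargeCharH88.mapP1 (p.map j) (q.map j) d =
      rt (p.map j) (q.map j) d := funext hmap
  have hsub : Option.map j '' (h.toFinset : Set (Option K)) ⊆
      Pool.Agent.Results.MP_9b502d_nt.LargeCharH88.preper p q d 1 := by
    rintro _ ⟨y, hy, rfl⟩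
    rw [Finset.mem_coe, Set.Finite.mem_toFinset] at hy
    obtain ⟨m, rfl⟩ := hy
    refine ⟨?_, ?_⟩
    · have h2 : (Set.range fun i : ℕ => (rt p q d)^[i] ((rt p q d)^[m] z)).Finite := by
        refine h.subset ?_
        rintro _ ⟨i, rfl⟩
        refine ⟨i + m, ?_⟩
        simp only
        rw [Function.iterate_add_apply]
      have h3 := orbit_map j p q d _ h2
      rw [← hmap'] at h3
      exact h3
    · intro x hx
      cases hy : (rt p q d)^[m] z with
      | none =>
        simp only [hy, Option.map_none] at hx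
        exact absurd hx (by simp)
      | some y =>
        simp only [hy, Option.map_some, Option.some.injEq] at hx
        rw [← hx]
        rw [minpoly.eq_X_sub_C, natDegree_X_sub_C]
  have h2 := (Set.encard_le_encard hsub).trans h1
  rw [hinj.encard_image, Set.encard_coe_eq_coe_finsetCard] at h2
  have h3 : h.toFinset.card ≤ N n 1 d := by exact_mod_cast h2
  omega

/-- the maximum of finitely many bounds -/
lemma max_bound (P : ℕ → ℕ → Prop) (h : ∀ c, ∃ R, P c R) (hP : ∀ c R R', R ≤ R' → P c R → P c R')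
    (m : ℕ) : ∃ R, ∀ c ≤ m, P c R := by
  choose R hR using h
  refine ⟨(Finset.range (m + 1)).sup R, fun c hc => ?_⟩
  exact hP c _ _ (Finset.le_sup (Finset.mem_range.mpr (by omega))) (hR c)

/-- **the length of finite orbits**, uniformly in the characteristic -/
theorem orb_irr_all : ∃ p₀ : ℕ → ℕ, ∀ n d : ℕ, 2 ≤ d → ∃ R : ℕ, ∀ c : ℕ,
    ∀ (k : Type v) (K : Type u) [Field k] [CharP k c] [Field K] [Algebra k K] (B : Set K),
    AlgebraicIndependent k ((↑) : B → K) →
    FiniteDimensional (IntermediateField.adjoin k B) K →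
    Module.finrank (IntermediateField.adjoin k B) K ≤ n →
    ∀ p q : K[X], IsCoprime p q → max p.natDegree q.natDegree = d → ¬ CA k p q d →
    (p₀ d < c → ¬ FL d (p.map (algebraMap K (AlgebraicClosure K)))
      (q.map (algebraMap K (AlgebraicClosure K)))) →
    ∀ z : Option K, ∀ h : (Set.range fun m : ℕ => (rt p q d)^[m] z).Finite,
      h.toFinset.card ≤ R := by
  obtain ⟨p₀, h1⟩ := orb_irr_large.{u, v}
  refine ⟨p₀, ?_⟩
  intro n d hd
  obtain ⟨R₁, hR₁⟩ := h1 n d hd
  obtain ⟨R₂, hR₂⟩ := max_bound (fun c R => 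
    ∀ (k : Type v) (K : Type u) [Field k] [CharP k c] [Field K] [Algebra k K] (B : Set K),
    AlgebraicIndependent k ((↑) : B → K) →
    FiniteDimensional (IntermediateField.adjoin k B) K →
    Module.finrank (IntermediateField.adjoin k B) K ≤ n →
    ∀ p q : K[X], IsCoprime p q → max p.natDegree q.natDegree = d → ¬ CA k p q d →
    ∀ z : Option K, ∀ h : (Set.range fun m : ℕ => (rt p q d)^[m] z).Finite,
      h.toFinset.card ≤ R) (fun c => orb_irr.{u, v} c n d hd)
    (fun c R R' hRR h k K _ _ _ _ B hB hfd hn p q hco hmax hiso z hz =>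
      (h k K B hB hfd hn p q hco hmax hiso z hz).trans hRR) (p₀ d)
  refine ⟨max R₁ R₂, ?_⟩
  intro c k K _ _ _ _ B hB hfd hn p q hco hmax hiso hfl z h
  by_cases hc : p₀ d < c
  · exact (hR₁ c hc k K B hB hfd hn p q hco hmax hiso (hfl hc) z h).trans (le_max_left _ _)
  · exact (hR₂ c (by omega) k K B hB hfd hn p q hco hmax hiso z h).trans (le_max_right _ _)

end Pool.Agent.Helper8.UB
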