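import Pool.Agent.Helper8.UB.Chr

/-!
# Preperiodic points: bounds independent of the characteristic
-/

set_option autoImplicit false

namespace Pool.Agent.Helper8.UB

open Polynomial Pool.Agent.W277.UH Pool.Agent.Y31.BI

universe u v w

/-- passing from the algebraic closure of a subfield -/
lemma FL_sub {k : Type v} {F : Type u} [Field k] [Field F] [Algebra k F] {d : ℕ}
    (M : IntermediateField k F) (p q : Polynomial M)
    (h : FL d (p.map (algebraMap M (AlgebraicClosure M)))
      (q.map (algebraMap M (AlgebraicClosure M)))) :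
    FL d ((p.map (algebraMap M F)).map (algebraMap F (AlgebraicClosure F)))
      ((q.map (algebraMap M F)).map (algebraMap F (AlgebraicClosure F))) := by
  let φ : AlgebraicClosure M →ₐ[M] AlgebraicClosure F := IsAlgClosed.lift
  have h1 := FL_map (φ : AlgebraicClosure M →+* AlgebraicClosure F) h
  have h2 : ((φ : AlgebraicClosure M →+* AlgebraicClosure F)).comp
      (algebraMap M (AlgebraicClosure M)) =
      (algebraMap F (AlgebraicClosure F)).comp (algebraMap M F) := by
    ext x
    exact φ.commutes x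
  rw [Polynomial.map_map, Polynomial.map_map, h2, ← Polynomial.map_map, ← Polynomial.map_map] at h1
  exact h1

/-- **bounds independent of the characteristic** -/
theorem main_all : ∃ p₀ : ℕ → ℕ, ∀ n d : ℕ, 2 ≤ d → ∃ N : ℕ, ∀ c : ℕ,
    ∀ (k : Type v) (F : Type u) [Field k] [CharP k c] [Field F] [Algebra k F]
    (p q : F[X]), IsCoprime p q → max p.natDegree q.natDegree = d →
    ¬ Pool.Agent.Y706.BI.IsoAlg k p q d →
    (p₀ d < c → ¬ FL d (p.map (algebraMap F (AlgebraicClosure F)))
      (q.map (algebraMap F (AlgebraicClosure F)))) →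
    {z : Option F | (Set.range fun m : ℕ => (ratP1 p q d)^[m] z).Finite ∧
      ∃ M : IntermediateField k F, Irr k M n ∧ (∀ i, p.coeff i ∈ M ∧ q.coeff i ∈ M) ∧
        ∀ x, z = some x → x ∈ M}.encard ≤ ((N : ℕ) : ℕ∞) := by
  classical
  obtain ⟨p₀, h⟩ := orb_irr_all.{u, v}
  refine ⟨p₀, ?_⟩
  intro n d hd
  obtain ⟨R, hR⟩ := h n d hd
  refine ⟨(R + 1) * ((R + 1) * (2 * d ^ R + 1)), ?_⟩
  intro c k F _ _ _ _ p q hco hmax hiso hfl
  apply main_of hd hco hmax R
  rintro M ⟨B, hB, hfd, hn⟩ p' q' rfl rfl z h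
  have hco' : IsCoprime p' q' := (Polynomial.isCoprime_map (algebraMap M F)).mp hco
  have hmax' : max p'.natDegree q'.natDegree = d := by
    rw [← hmax, natDegree_map, natDegree_map]
  have hni : ¬ Pool.Agent.Z864.UB.CA k p' q' d := by
    intro h1
    apply hiso
    have h2 := isoAlg_map (IsScalarTower.toAlgHom k M F) ((ca_iff p' q' d).1 h1)
    exact h2
  have h2 : (Set.range fun m : ℕ => (Pool.Agent.Z864.UB.rt p' q' d)^[m] z).Finite := by
    rw [rt_eq]
    exact h
  have h3 := hR c k M B hB hfd hn p' q' hco' hmax' hni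
    (fun hc h4 => hfl hc (FL_sub M p' q' h4)) z h2
  have h4 : h.toFinset = h2.toFinset := by
    ext y
    rw [Set.Finite.mem_toFinset, Set.Finite.mem_toFinset, rt_eq]
  rw [h4]
  exact h3

end Pool.Agent.Helper8.UB
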