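import Pool.Agent.Helper8.UB.Orb

/-!
# From the length of orbits to the number of preperiodic points
-/

set_option autoImplicit false

namespace Pool.Agent.Helper8.UB

open Polynomial Pool.Agent.W277.UH Pool.Agent.Y31.BI

universe u v w

/-- coincidences of iterates over any field -/
lemma coin_any {F : Type*} [Field F] {d : ℕ} {p q : F[X]} (hd : 2 ≤ d) (hco : IsCoprime p q)
    (hmax : max p.natDegree q.natDegree = d) {a b : ℕ} (hab : b < a) :
    {z : Option F | (ratP1 p q d)^[a] z = (ratP1 p q d)^[b] z}.encard ≤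
      ((2 * d ^ a + 1 : ℕ) : ℕ∞) := by
  classical
  obtain ⟨hp, hq, hl⟩ := Pool.Agent.Z864.UB.lead hd hmax
  set j := algebraMap F (AlgebraicClosure F) with hj
  have hl' : (p.map j).coeff d ≠ 0 ∨ (q.map j).coeff d ≠ 0 := by
    rw [coeff_map, coeff_map]
    rcases hl with h | h
    · exact Or.inl ((map_ne_zero j).mpr h)
    · exact Or.inr ((map_ne_zero j).mpr h)
  have h1 := coin hd (natDegree_map_le.trans hp) (natDegree_map_le.trans hq)
    ((Polynomial.isCoprime_map j).mpr hco) hl' hab
  have hinj : Function.Injective (Option.map j) := Option.map_injective j.injective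
  rw [← hinj.encard_image]
  refine (Set.encard_le_encard ?_).trans h1
  rintro _ ⟨z, hz, rfl⟩
  simp only [Set.mem_ofPred_eq] at hz ⊢
  rw [ratP1_iter_map, ratP1_iter_map, hz]

/-- the number of points of bounded orbit length -/
theorem cover {F : Type*} [Field F] {d : ℕ} {p q : F[X]} (hd : 2 ≤ d) (hco : IsCoprime p q)
    (hmax : max p.natDegree q.natDegree = d) (R : ℕ) (S : Set (Option F))
    (hS : ∀ z ∈ S, ∃ a b : ℕ, b < a ∧ a ≤ R ∧ (ratP1 p q d)^[a] z = (ratP1 p q d)^[b] z) :
    S.encard ≤ (((R + 1) * ((R + 1) * (2 * d ^ R + 1)) : ℕ) : ℕ∞) := by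
  classical
  have hcov : S ⊆ ⋃ a ∈ Finset.range (R + 1), ⋃ b ∈ Finset.range (R + 1),
      {z : Option F | b < a ∧ (ratP1 p q d)^[a] z = (ratP1 p q d)^[b] z} := by
    intro z hz
    obtain ⟨a, b, hab, ha, h⟩ := hS z hz
    simp only [Set.mem_iUnion, Finset.mem_range]
    exact ⟨a, by omega, b, by omega, hab, h⟩
  have hone : ∀ a ∈ Finset.range (R + 1), ∀ b ∈ Finset.range (R + 1),
      {z : Option F | b < a ∧ (ratP1 p q d)^[a] z = (ratP1 p q d)^[b] z}.encard ≤
        ((2 * d ^ R + 1 : ℕ) : ℕ∞) := by
    intro a ha b _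
    rw [Finset.mem_range] at ha
    by_cases hab : b < a
    · refine (Set.encard_le_encard ?_).trans ((coin_any hd hco hmax hab).trans ?_)
      · exact fun z hz => hz.2
      · have h1 : 2 * d ^ a + 1 ≤ 2 * d ^ R + 1 := by
          have := Nat.pow_le_pow_right (show 0 < d by omega) (show a ≤ R by omega)
          omega
        exact_mod_cast h1
    · have h1 : {z : Option F | b < a ∧ (ratP1 p q d)^[a] z = (ratP1 p q d)^[b] z} = ∅ := by
        ext z
        simp [hab]
      rw [h1, Set.encard_empty]
      exact bot_le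
  exact (Set.encard_le_encard hcov).trans
    (Pool.Agent.Q103.FS.union_bound _ _ _ fun a ha =>
      Pool.Agent.Q103.FS.union_bound _ _ _ fun b hb => hone a ha b hb)

/-- a field is of degree at most `n` over a purely transcendental extension of `k` -/
def Irr (k M : Type*) [Field k] [Field M] [Algebra k M] (n : ℕ) : Prop :=
  ∃ B : Set M, AlgebraicIndependent k ((↑) : B → M) ∧
    FiniteDimensional (IntermediateField.adjoin k B) M ∧
    Module.finrank (IntermediateField.adjoin k B) M ≤ n

/-- the general form: from a bound of the length of orbits over the fields `M` -/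
theorem main_of {k : Type v} {F : Type u} [Field k] [Field F] [Algebra k F] {n d : ℕ} (hd : 2 ≤ d)
    {p q : F[X]} (hco : IsCoprime p q) (hmax : max p.natDegree q.natDegree = d) (R : ℕ)
    (H : ∀ M : IntermediateField k F, Irr k M n → ∀ p' q' : Polynomial M,
      p'.map (algebraMap M F) = p → q'.map (algebraMap M F) = q → ∀ z : Option M,
      ∀ h : (Set.range fun m : ℕ => (ratP1 p' q' d)^[m] z).Finite, h.toFinset.card ≤ R) :
    {z : Option F | (Set.range fun m : ℕ => (ratP1 p q d)^[m] z).Finite ∧
      ∃ M : IntermediateField k F, Irr k M n ∧ (∀ i, p.coeff i ∈ M ∧ q.coeff i ∈ M) ∧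
        ∀ x, z = some x → x ∈ M}.encard ≤ (((R + 1) * ((R + 1) * (2 * d ^ R + 1)) : ℕ) : ℕ∞) := by
  classical
  apply cover hd hco hmax
  rintro z ⟨hz, M, hM, hpq, hx⟩
  obtain ⟨y, hy⟩ : ∃ y : Option M, y.map (algebraMap M F) = z := by
    cases z with
    | none => exact ⟨none, rfl⟩
    | some x => exact ⟨some ⟨x, hx x rfl⟩, rfl⟩
  have hlift : ∀ P : F[X], (∀ i, P.coeff i ∈ M) → ∃ P' : Polynomial M, P'.map (algebraMap M F) = P := by
    intro P hP
    have : P ∈ lifts (algebraMap M F) := by
      rw [lifts_iff_coeff_lifts]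
      exact fun m => ⟨⟨P.coeff m, hP m⟩, rfl⟩
    exact (mem_lifts P).mp this
  obtain ⟨p', hp'⟩ := hlift p fun i => (hpq i).1
  obtain ⟨q', hq'⟩ := hlift q fun i => (hpq i).2
  have hfin : (Set.range fun m : ℕ => (ratP1 p' q' d)^[m] y).Finite := by
    apply pre_map (algebraMap M F)
    rw [hp', hq', hy]
    exact hz
  have hB := H M hM p' q' hp' hq' y hfin
  obtain ⟨a, b, hab, ha, h⟩ := pigeon (ratP1 p' q' d) y
    (Set.range fun m : ℕ => (ratP1 p' q' d)^[m] y) R (by
      rw [hfin.encard_eq_coe_toFinset_card]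
      exact_mod_cast hB) (fun m => ⟨m, rfl⟩)
  refine ⟨a, b, hab, ha, ?_⟩
  have h1 := congrArg (Option.map (algebraMap M F)) h
  rw [← ratP1_iter_map, ← ratP1_iter_map, hp', hq', hy] at h1
  exact h1

/-- **uniform bound in characteristic `c`** -/
theorem main_char (c : ℕ) : ∀ n d : ℕ, 2 ≤ d → ∃ N : ℕ,
    ∀ (k : Type v) (F : Type u) [Field k] [CharP k c] [Field F] [Algebra k F]
    (p q : F[X]), IsCoprime p q → max p.natDegree q.natDegree = d →
    ¬ Pool.Agent.Y706.BI.IsoAlg k p q d →
    {z : Option F | (Set.range fun m : ℕ => (ratP1 p q d)^[m] z).Finite ∧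
      ∃ M : IntermediateField k F, Irr k M n ∧ (∀ i, p.coeff i ∈ M ∧ q.coeff i ∈ M) ∧
        ∀ x, z = some x → x ∈ M}.encard ≤ ((N : ℕ) : ℕ∞) := by
  classical
  intro n d hd
  obtain ⟨R, hR⟩ := orb_irr.{u, v} c n d hd
  refine ⟨(R + 1) * ((R + 1) * (2 * d ^ R + 1)), ?_⟩
  intro k F _ _ _ _ p q hco hmax hiso
  apply main_of hd hco hmax R
  rintro M ⟨B, hB, hfd, hn⟩ p' q' rfl rfl z h
  have hco' : IsCoprime p' q' := (Polynomial.isCoprime_map (algebraMap M F)).mp hco
  have hmax' : max p'.natDegree q'.natDegree = d := by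
    rw [← hmax, natDegree_map, natDegree_map]
  have hni : ¬ Pool.Agent.Z864.UB.CA k p' q' d := by
    intro h1
    apply hiso
    have h2 := isoAlg_map (IsScalarTower.toAlgHom k M F) ((ca_iff p' q' d).1 h1)
    exact h2
  have h2 : (Set.range fun m : ℕ => (Pool.Agent.Z864.UB.rt p' q' d)^[m] z).Finite := by
    rw [rt_eq]
    exact h
  have h3 := hR k M B hB hfd hn p' q' hco' hmax' hni z h2
  have h4 : h.toFinset = h2.toFinset := by
    ext y
    rw [Set.Finite.mem_toFinset, Set.Finite.mem_toFinset, rt_eq]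
  rw [h4]
  exact h3

/-- the extension `E` of `L` over the field generated by the image of `B` -/
lemma tower_set {k : Type v} {L : Type u} [Field k] [Field L] [Algebra k L] (B : Set L)
    [FiniteDimensional (IntermediateField.adjoin k B) L] (E : Type w) [Field E] [Algebra L E]
    [Algebra k E] [IsScalarTower k L E] [FiniteDimensional L E] :
    FiniteDimensional (IntermediateField.adjoin k (algebraMap L E '' B)) E ∧
    Module.finrank (IntermediateField.adjoin k (algebraMap L E '' B)) E =
      Module.finrank (IntermediateField.adjoin k B) L * Module.finrank L E := by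
  set K := IntermediateField.adjoin k B with hK
  set M := IntermediateField.adjoin k (algebraMap L E '' B) with hM
  have hmap : K.map (IsScalarTower.toAlgHom k L E) = M := by
    rw [hK, IntermediateField.adjoin_map, hM]
    rfl
  let e0 : K ≃ₐ[k] K.map (IsScalarTower.toAlgHom k L E) :=
    IntermediateField.equivMap K (IsScalarTower.toAlgHom k L E)
  let e1 : K.map (IsScalarTower.toAlgHom k L E) ≃ₐ[k] M := IntermediateField.equivOfEq hmap
  let e : K ≃+* M := (e0.trans e1).toRingEquiv
  have hcomm : (algebraMap M E).comp (e : K →+* M) =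
      ((RingEquiv.refl E : E ≃+* E) : E →+* E).comp (algebraMap K E) := RingHom.ext fun _ => rfl
  have h0 : Module.Finite K E := Module.Finite.trans L E
  have h1 : Module.Finite M E := Module.Finite.of_equiv_equiv e (RingEquiv.refl E) hcomm
  refine ⟨h1, ?_⟩
  rw [← Algebra.finrank_eq_of_equiv_equiv e (RingEquiv.refl E) hcomm]
  exact (Module.finrank_mul_finrank K L E).symm

/-- finite extensions of fields of bounded irrationality -/
lemma irr_ext {k : Type v} {L : Type u} [Field k] [Field L] [Algebra k L] {m D : ℕ}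
    (h : Irr k L m) (E : Type w) [Field E] [Algebra L E] [Algebra k E] [IsScalarTower k L E]
    [FiniteDimensional L E] (hD : Module.finrank L E ≤ D) : Irr k E (m * D) := by
  obtain ⟨B, hB, hfd, hm⟩ := h
  obtain ⟨h1, h2⟩ := tower_set (k := k) B E
  refine ⟨algebraMap L E '' B, ?_, h1, ?_⟩
  · have hinj : Function.Injective (IsScalarTower.toAlgHom k L E) := (algebraMap L E).injective
    have h3 := (hB.map' hinj).coe_range
    have h4 : Set.range ((IsScalarTower.toAlgHom k L E) ∘ ((↑) : B → L)) =
        algebraMap L E '' B := by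
      rw [Set.range_comp, Subtype.range_coe]
      rfl
    rw [h4] at h3
    exact h3
  · rw [h2]
    exact Nat.mul_le_mul hm hD

end Pool.Agent.Helper8.UB
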