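import Pool.Agent.Helper8.UB.Cov

/-!
# Points of bounded degree, finitely generated fields
-/

set_option autoImplicit false

namespace Pool.Agent.Helper8.UB

open Polynomial Pool.Agent.W277.UH Pool.Agent.Y31.BI

universe u v w

/-- points of bounded degree over a field of bounded irrationality lie in fields of bounded
irrationality -/
lemma deg_irr {k : Type v} {K : Type u} [Field k] [Field K] [Algebra k K] {m D E : ℕ}
    (hK : Irr k K m) (L : IntermediateField K (AlgebraicClosure K)) (hfd : FiniteDimensional K L)
    (hD : Module.finrank K L ≤ D) (hE : 1 ≤ E) (z : Option (AlgebraicClosure K))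
    (hz : ∀ x, z = some x → (minpoly L x).natDegree ≤ E) :
    ∃ M : IntermediateField k (AlgebraicClosure K), Irr k M (m * D * E) ∧
      (∀ y ∈ L, y ∈ M) ∧ ∀ x, z = some x → x ∈ M := by
  classical
  obtain ⟨E₀, hE1, hE2, hE3⟩ : ∃ E₀ : IntermediateField L (AlgebraicClosure K),
      FiniteDimensional L E₀ ∧ Module.finrank L E₀ ≤ E ∧ ∀ x, z = some x → x ∈ E₀ := by
    cases z with
    | none =>
      refine ⟨⊥, inferInstance, ?_, fun x hx => by simp at hx⟩
      rw [IntermediateField.finrank_bot]
      exact hE
    | some x =>
      have hint : IsIntegral L x := Algebra.IsIntegral.isIntegral x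
      refine ⟨IntermediateField.adjoin L {x}, IntermediateField.adjoin.finiteDimensional hint, ?_,
        fun y hy => ?_⟩
      · rw [IntermediateField.adjoin.finrank hint]
        exact hz x rfl
      · rw [← Option.some.inj hy]
        exact IntermediateField.mem_adjoin_simple_self L x
  have hfd1 : FiniteDimensional K E₀ := Module.Finite.trans L E₀
  have hfd2 : FiniteDimensional K (E₀.restrictScalars K) := hfd1
  have hrk : Module.finrank K (E₀.restrictScalars K) ≤ D * E := by
    have h1 : Module.finrank K (E₀.restrictScalars K) = Module.finrank K E₀ := rfl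
    rw [h1, ← Module.finrank_mul_finrank K L E₀]
    exact Nat.mul_le_mul hD hE2
  have h2 : Irr k (E₀.restrictScalars K) (m * D * E) := by
    rw [mul_assoc]
    exact irr_ext hK (E₀.restrictScalars K) hrk
  refine ⟨(E₀.restrictScalars K).restrictScalars k, h2, fun y hy => ?_, fun x hx => hE3 x hx⟩
  exact E₀.algebraMap_mem ⟨y, hy⟩

/-- finitely generated fields are of bounded irrationality -/
lemma irr_of_fg {k : Type v} {K : Type u} [Field k] [Field K] [Algebra k K]
    (h : (⊤ : IntermediateField k K).FG) : ∃ m, Irr k K m := by
  obtain ⟨S, hS⟩ := h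
  obtain ⟨B, hB⟩ := exists_isTranscendenceBasis k K
  have halg : Algebra.IsAlgebraic (IntermediateField.adjoin k B) K := by
    have h1 := hB.isAlgebraic_field
    rwa [Subtype.range_coe] at h1
  have htop : IntermediateField.adjoin (IntermediateField.adjoin k B) (S : Set K) = ⊤ := by
    apply IntermediateField.restrictScalars_injective k
    rw [IntermediateField.adjoin_adjoin_left, IntermediateField.restrictScalars_top, eq_top_iff,
      ← hS]
    exact IntermediateField.adjoin.mono _ _ _ Set.subset_union_right
  have hfd : FiniteDimensional (IntermediateField.adjoin k B)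
      (IntermediateField.adjoin (IntermediateField.adjoin k B) (S : Set K)) :=
    IntermediateField.finiteDimensional_adjoin fun x _ => Algebra.IsIntegral.isIntegral x
  have hfd2 : FiniteDimensional (IntermediateField.adjoin k B) K := by
    rw [htop] at hfd
    exact Module.Finite.equiv (IntermediateField.topEquiv (F := IntermediateField.adjoin k B)
      (E := K)).toLinearEquiv
  exact ⟨_, B, hB.1, hfd2, le_rfl⟩

end Pool.Agent.Helper8.UB
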