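import Pool.Graph.R_pool_sql_team_seeded_2aa45f1a.Q15.TD.T1
import Pool.Graph.R_pool_sql_team_seeded_3997aac3.Q103.FS.Bdg
import Pool.Graph.R_pool_sql_team_seeded_3997aac3.Q103.FS.Orb
import Pool.Graph.R_pool_sql_team_seeded_3997aac3.Q103.FS.Main

/-!
# The length of finite orbits over finite extensions of purely transcendental extensions
-/

set_option autoImplicit false

namespace Pool.Agent.Helper8.UB

open Polynomial Pool.Agent.Z864.UB

universe u v

lemma rt_eq {F : Type*} [Field F] (p q : F[X]) (d : ℕ) :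
    rt p q d = Pool.Agent.W277.UH.ratP1 p q d := by
  funext z
  rcases z with _ | x <;> rfl

lemma ca_iff {k : Type*} {F : Type*} [Field k] [Field F] [Algebra k F] (p q : F[X]) (d : ℕ) :
    CA k p q d ↔ Pool.Agent.Y706.BI.IsoAlg k p q d := Iff.rfl

/-- **Transfer of bounds for the length of orbits.** -/
theorem orb_transfer {k : Type v} {K : Type u} [Field k] [Field K] [Algebra k K] {B : Set K}
    (hB : AlgebraicIndependent k ((↑) : B → K))
    [FiniteDimensional (IntermediateField.adjoin k B) K] {n d : ℕ}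
    (hn : Module.finrank (IntermediateField.adjoin k B) K ≤ n) (hd : 2 ≤ d) {p q : K[X]}
    (hco : IsCoprime p q) (hmax : max p.natDegree q.natDegree = d)
    (hiso : ¬ CA k p q d) {M : ℕ} (hM : 2 * d + 1 ≤ M)
    (H : ∀ (k' : IntermediateField k K) (b : K), Transcendental k' b →
      FiniteDimensional (IntermediateField.adjoin k' {b}) K →
      Module.finrank (IntermediateField.adjoin k' {b}) K ≤ n →
      ¬ CA k' (p.map (algebraMap K (AlgebraicClosure K)))
        (q.map (algebraMap K (AlgebraicClosure K))) d →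
      ∀ z : Option K, ∀ h : (Set.range fun m : ℕ => (rt p q d)^[m] z).Finite,
        h.toFinset.card ≤ M) :
    ∀ z : Option K, ∀ h : (Set.range fun m : ℕ => (rt p q d)^[m] z).Finite,
      h.toFinset.card ≤ M := by
  classical
  intro z h
  by_contra hcon
  push Not at hcon
  apply hiso
  have hP : ∀ y ∈ h.toFinset, rt p q d y ∈ h.toFinset := by
    intro y hy
    rw [Set.Finite.mem_toFinset] at hy ⊢
    obtain ⟨m, rfl⟩ := hy
    refine ⟨m + 1, ?_⟩
    simp only
    rw [Function.iterate_succ_apply']
  refine descent hB ?_ (fun _ => ∅) (fun b _ => Set.empty_subset _) hd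
    hmax hco (P := h.toFinset) hP (by omega) ?_
  · intro x
    rw [mem_cl]
    exact Algebra.IsAlgebraic.isAlgebraic x
  · intro b hb
    by_contra hni
    have hun : (B \ {b} ∪ ∅) ∪ {b} = B := by
      rw [Set.union_empty]
      exact Set.sdiff_union_of_subset (Set.singleton_subset_iff.2 hb)
    obtain ⟨h1, h2⟩ := Pool.Agent.Q15.TD.sub_finrank (k := k) hun
    have htr : Transcendental (IntermediateField.adjoin k (B \ {b} ∪ ∅)) b := by
      intro h
      have h3 : b ∈ (MM k K).closure (B \ {b} ∪ ∅) := mem_cl.mpr h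
      rw [Set.union_empty] at h3
      have hI : (MM k K).Indep B := AlgebraicIndependent.matroid_indep_iff.mpr hB
      exact hI.notMem_closure_sdiff_of_mem hb h3
    have h3 := H (IntermediateField.adjoin k (B \ {b} ∪ ∅)) b htr h1 (h2.le.trans hn) hni z h
    omega

/-- the bound for orbits in all characteristics -/
theorem orbB_all (c : ℕ) : Pool.Agent.Q103.FS.OrbB.{u} c := by
  by_cases h0 : c = 0
  · rw [h0]
    exact Pool.Agent.Q103.FS.orbB_zero.{u}
  by_cases h : c.Prime
  · intro n d hd
    obtain ⟨B, hB⟩ := Pool.Agent.Q103.FS.orbP.{u} c n d h hd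
    refine ⟨B, ?_⟩
    intro k' E _ _ _ _ _ t G _ hG hcard p q hp hq hco P hP hx hiso
    have : Fact c.Prime := ⟨h⟩
    have : CharP E c := charP_of_injective_algebraMap (algebraMap k' E).injective c
    exact hB k' E t G hG hcard p q hp hq hco P hP hx hiso
  · intro n d hd
    refine ⟨0, ?_⟩
    intro k' E _ _ _ _ _ t G _ hG hcard p q hp hq hco P hP hx hiso
    exact absurd (CharP.char_is_prime_or_zero k' c) (by tauto)

/-- **the length of finite orbits**, for fields of bounded irrationality -/
theorem orb_irr (c : ℕ) : ∀ n d : ℕ, 2 ≤ d → ∃ R : ℕ,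
    ∀ (k : Type v) (K : Type u) [Field k] [CharP k c] [Field K] [Algebra k K] (B : Set K),
    AlgebraicIndependent k ((↑) : B → K) →
    FiniteDimensional (IntermediateField.adjoin k B) K →
    Module.finrank (IntermediateField.adjoin k B) K ≤ n →
    ∀ p q : K[X], IsCoprime p q → max p.natDegree q.natDegree = d → ¬ CA k p q d →
    ∀ z : Option K, ∀ h : (Set.range fun m : ℕ => (rt p q d)^[m] z).Finite,
      h.toFinset.card ≤ R := by
  classical
  intro n d hd
  obtain ⟨R, hR⟩ := Pool.Agent.Q103.FS.orb_len.{u, u} (orbB_all.{u} c) n d hd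
  refine ⟨R + (2 * d + 1), ?_⟩
  intro k K _ _ _ _ B hB hfd hn p q hco hmax hiso
  refine orb_transfer hB hn hd hco hmax hiso (by omega) ?_
  intro k' b hb hfd' hn' hni z h
  have hck : CharP k' c := charP_of_injective_algebraMap (algebraMap k k').injective c
  have h1 := hR k' K b hb hfd' hn' p q hco hmax (fun h2 => hni (CA_map
    ((ca_iff p q d).2 (Pool.Agent.Q103.FS.isoAlg_of_conjConst h2)))) z
  have h2 : (Set.range fun m : ℕ => (Pool.Agent.W277.UH.ratP1 p q d)^[m] z).Finite := by
    rw [← rt_eq]
    exact h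
  have h3 := h1 h2
  have h4 : h.toFinset = h2.toFinset := by
    ext y
    rw [Set.Finite.mem_toFinset, Set.Finite.mem_toFinset, rt_eq]
  rw [h4]
  omega

end Pool.Agent.Helper8.UB
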